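import Pool.Agent.Helper48.OR.Defs

/-!
# One-relator algebras, part M2: a module detecting reachability (MP_b71150_al)
-/

set_option autoImplicit false

namespace Pool.Agent.Helper2.OR

open Pool.Agent.Helper91.SG Pool.Agent.Helper48.OR

open scoped Classical in
/-- The indicator of reachability. -/
noncomputable def chi {Q K A : Type} [DecidableEq K] (δ : Q → Cmd Q K A) (qr : Q) (F : Type)
    [CommRing F] (q : Q) (z : K → List A) : F := if Rch δ qr (q, z) then 1 else 0

/-- Pushing a letter. -/
def pushL {K A : Type} [DecidableEq K] (k : K) (a : A) (z : K → List A) : K → List A :=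
  Function.update z k (a :: z k)

/-- The operators. -/
noncomputable def op {Q K A : Type} [DecidableEq K] (δ : Q → Cmd Q K A) (qr : Q) (F : Type)
    [CommRing F] : Om Q K A → Module.End F (((K → List A) →₀ F) × F)
  | .st q => (LinearMap.inr F ((K → List A) →₀ F) F) ∘ₗ
      (Finsupp.linearCombination F (chi δ qr F q)) ∘ₗ (LinearMap.fst F ((K → List A) →₀ F) F)
  | .lt k a => (LinearMap.inl F ((K → List A) →₀ F) F) ∘ₗ
      (Finsupp.lmapDomain F F (pushL k a)) ∘ₗ (LinearMap.fst F ((K → List A) →₀ F) F)

section

variable {Q K A : Type} [DecidableEq K] (δ : Q → Cmd Q K A) (qr : Q) (F : Type) [CommRing F]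

theorem op_st (q : Q) (x : ((K → List A) →₀ F) × F) :
    op δ qr F (.st q) x = (0, Finsupp.linearCombination F (chi δ qr F q) x.1) := rfl

theorem op_lt (k : K) (a : A) (x : ((K → List A) →₀ F) × F) :
    op δ qr F (.lt k a) x = (Finsupp.mapDomain (pushL k a) x.1, 0) := rfl

theorem lc_map (q : Q) (g : (K → List A) → (K → List A)) (m : (K → List A) →₀ F) :
    Finsupp.linearCombination F (chi δ qr F q) (Finsupp.mapDomain g m) =
      Finsupp.linearCombination F (fun z => chi δ qr F q (g z)) m := by
  rw [Finsupp.linearCombination_mapDomain]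
  rfl

theorem rch_step (hq : δ qr = .halt) (c d : Q × (K → List A)) (h : step δ c = some d) :
    Rch δ qr c ↔ Rch δ qr d := by
  constructor
  · rintro ⟨c', hc, hc'⟩
    rcases Relation.ReflTransGen.cases_head hc with rfl | ⟨e, he, hec⟩
    · exfalso
      unfold step at h
      rw [hc', hq] at h
      simp at h
    · rw [h] at he
      obtain rfl := Option.some.inj he
      exact ⟨c', hec, hc'⟩
  · rintro ⟨c', hc, hc'⟩
    exact ⟨c', Relation.ReflTransGen.head h hc, hc'⟩

theorem chi_congr {q q' : Q} {z z' : K → List A} (h : Rch δ qr (q, z) ↔ Rch δ qr (q', z')) :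
    chi δ qr F q z = chi δ qr F q' z' := by
  unfold chi
  by_cases h1 : Rch δ qr (q, z)
  · rw [if_pos h1, if_pos (h.1 h1)]
  · rw [if_neg h1, if_neg (fun h2 => h1 (h.2 h2))]

theorem pushL_comm (k l : K) (a b : A) (h : k ≠ l) (z : K → List A) :
    pushL k a (pushL l b z) = pushL l b (pushL k a z) := by
  unfold pushL
  rw [Function.update_of_ne h, Function.update_of_ne h.symm, Function.update_comm h]

theorem rel_op (hq : δ qr = .halt) (u v : List (Om Q K A)) (h : Rel δ qr u v) :
    (u.map (op δ qr F)).prod = (v.map (op δ qr F)).prod := by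
  cases h with
  | jump q q' h =>
    simp only [List.map_cons, List.map_nil, List.prod_cons, List.prod_nil, mul_one]
    refine LinearMap.ext fun x => ?_
    rw [op_st, op_st]
    have : chi δ qr F q = chi δ qr F q' := by
      funext z
      exact chi_congr δ qr F (rch_step δ qr hq _ _ (by simp [step, h]))
    rw [this]
  | push q k a q' h =>
    simp only [List.map_cons, List.map_nil, List.prod_cons, List.prod_nil, mul_one]
    refine LinearMap.ext fun x => ?_
    rw [Module.End.mul_apply, op_lt, op_st, op_st, lc_map]
    have : chi δ qr F q = fun z => chi δ qr F q' (pushL k a z) := by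
      funext z
      exact chi_congr δ qr F (rch_step δ qr hq _ _ (by simp [step, h, pushL]))
    rw [this]
  | pop q k f a h =>
    simp only [List.map_cons, List.map_nil, List.prod_cons, List.prod_nil, mul_one]
    refine LinearMap.ext fun x => ?_
    rw [Module.End.mul_apply, op_lt, op_st, op_st, lc_map]
    have : (fun z => chi δ qr F q (pushL k a z)) = chi δ qr F (f a) := by
      funext z
      exact chi_congr δ qr F (rch_step δ qr hq _ _ (by simp [step, h, pushL]))
    rw [this]
  | halt k a =>
    simp only [List.map_cons, List.map_nil, List.prod_cons, List.prod_nil, mul_one]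
    refine LinearMap.ext fun x => ?_
    rw [Module.End.mul_apply, op_lt, op_st, op_st, lc_map]
    have : (fun z => chi δ qr F qr (pushL k a z)) = chi δ qr F qr := by
      funext z
      exact chi_congr δ qr F ⟨fun _ => ⟨_, .refl, rfl⟩, fun _ => ⟨_, .refl, rfl⟩⟩
    rw [this]
  | comm k a l b h =>
    simp only [List.map_cons, List.map_nil, List.prod_cons, List.prod_nil, mul_one]
    refine LinearMap.ext fun x => ?_
    rw [Module.End.mul_apply, Module.End.mul_apply, op_lt, op_lt, op_lt, op_lt]
    simp only [← Finsupp.mapDomain_comp]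
    have : pushL k a ∘ pushL l b = pushL l b ∘ pushL k a := by
      funext z
      exact pushL_comm k l a b h z
    rw [this]

theorem prod_col (k : K) (w : List A) (y : K → List A) :
    ((w.map (Om.lt k)).map (op δ qr F)).prod (Finsupp.single y 1, 0) =
      (Finsupp.single (Function.update y k (w ++ y k)) 1, 0) := by
  induction w with
  | nil => simp
  | cons a w ih =>
    simp only [List.map_cons, List.prod_cons, Module.End.mul_apply, ih, op_lt,
      Finsupp.mapDomain_single, pushL, Function.update_self, Function.update_idem,
      List.cons_append]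

theorem prod_wz (ks : List K) (z : K → List A) (hn : ks.Nodup) :
    ((wz ks z).map (op δ qr F)).prod (Finsupp.single (fun _ => []) 1, 0) =
      (Finsupp.single (fun k => if k ∈ ks then z k else []) 1, 0) := by
  induction ks with
  | nil => simp [wz]
  | cons k ks ih =>
    have hk : k ∉ ks := (List.nodup_cons.1 hn).1
    have : wz (Q := Q) (k :: ks) z = (z k).map (Om.lt k) ++ wz ks z := rfl
    rw [this, List.map_append, List.prod_append, Module.End.mul_apply,
      ih (List.nodup_cons.1 hn).2, prod_col]
    congr 2
    funext j
    by_cases hj : j = k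
    · subst hj
      simp [hk]
    · simp [hj]

end

theorem m2 : StM2 := by
  intro Q K A _ δ qr F _ _ hq
  refine ⟨((K → List A) →₀ F) × F, inferInstance, inferInstance, op δ qr F,
    (Finsupp.single (fun _ => []) 1, 0), rel_op δ qr F hq, ?_⟩
  intro ks c hn hk h
  by_contra hc
  have hz : (fun k => if k ∈ ks then c.2 k else []) = c.2 := by
    funext k
    rw [if_pos (hk k)]
  rw [List.map_cons, List.prod_cons, Module.End.mul_apply, prod_wz δ qr F ks c.2 hn, hz,
    op_st, op_st, Finsupp.linearCombination_single, Finsupp.linearCombination_single] at h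
  have h2 := (Prod.mk.inj h).2
  simp only [one_smul] at h2
  have h3 : chi δ qr F c.1 c.2 = 0 := if_neg hc
  have h4 : chi δ qr F qr (fun _ : K => ([] : List A)) = 1 := if_pos ⟨_, .refl, rfl⟩
  rw [h3, h4] at h2
  exact zero_ne_one h2

end Pool.Agent.Helper2.OR
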